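import Mathlib
import Pool.Agent.MP_026d7f_an.Mg.Packing

namespace Pool.Agent.MP_026d7f_an.H9

open Finset Module

section matrix

variable {n : ℕ} {s t : Fin n → Fin n → ℝ}

/-- the product identity between two slack matrices -/
def Prod1 (s t : Fin n → Fin n → ℝ) : Prop :=
  ∀ i j, ∑ k, s i k * t k j
    = (if i = j then 1 else 0) + (∑ k, s i k - 1) * (∑ k, t k j - 1) / (n - 2)

theorem Prod1.flip (h : Prod1 s t) : Prod1 (fun i j => t j i) (fun i j => s j i) := by
  intro i j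
  have := h j i
  simp only [mul_comm (t _ _)] at this ⊢
  rw [this, mul_comm (∑ k, t k i - 1)]
  simp only [eq_comm]

/-- a column of `t` with sum less than one forces a large row of `s` -/
theorem row_big (hn : 3 ≤ n) (hs1 : ∀ i j, s i j ≤ 1) (ht0 : ∀ i j, 0 ≤ t i j) (h : Prod1 s t)
    {i : Fin n} (hi : ∑ k, t k i - 1 < 0) : (n : ℝ) - 2 ≤ ∑ k, s i k - 1 := by
  have hn3 : (3 : ℝ) ≤ n := by exact_mod_cast hn
  have hn2 : (0 : ℝ) < n - 2 := by linarith
  have h1 : ∑ k, s i k * t k i ≤ ∑ k, t k i :=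
    Finset.sum_le_sum fun k _ => by nlinarith [hs1 i k, ht0 k i]
  rw [h i i, if_pos rfl] at h1
  have h2 : (∑ k, s i k - 1) * (∑ k, t k i - 1) / (n - 2) ≤ ∑ k, t k i - 1 := by linarith
  rw [div_le_iff₀ hn2] at h2
  by_contra hneg
  push Not at hneg
  nlinarith

/-- a column of `t` with sum less than one: all other columns are large, or a row of `t` is
full off that column -/
theorem col_small (hn : 3 ≤ n) (hs1 : ∀ i j, s i j ≤ 1) (ht0 : ∀ i j, 0 ≤ t i j)
    (ht1 : ∀ i j, t i j ≤ 1) (h : Prod1 s t) {l : Fin n} (hl : ∑ k, t k l - 1 < 0) :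
    (∀ j, j ≠ l → (n : ℝ) - 2 ≤ ∑ k, t k j - 1) ∨ ∃ k, ∀ j, j ≠ l → t k j = 1 := by
  have hn3 : (3 : ℝ) ≤ n := by exact_mod_cast hn
  have hn2 : (0 : ℝ) < n - 2 := by linarith
  have hbig := row_big hn hs1 ht0 h hl
  set w : Fin n → ℝ := fun k => 1 - s l k with hw
  have hw0 : ∀ k, 0 ≤ w k := fun k => by simp only [hw]; linarith [hs1 l k]
  have hω : ∑ k, w k = n - ∑ k, s l k := by
    simp only [hw, Finset.sum_sub_distrib]; simp
  have hrow : ∀ j, j ≠ l → ∑ k, w k * t k j
      = 1 - (1 - ∑ k, w k) * (∑ k, t k j - 1) / (n - 2) := by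
    intro j hj
    have h1 := h l j
    rw [if_neg (Ne.symm hj)] at h1
    have h2 : ∑ k, w k * t k j = ∑ k, t k j - ∑ k, s l k * t k j := by
      rw [← Finset.sum_sub_distrib]
      exact Finset.sum_congr rfl fun k _ => by simp only [hw]; ring
    rw [h2, h1, hω]
    field_simp
    ring
  have hle : ∀ j, ∑ k, w k * t k j ≤ ∑ k, w k := fun j =>
    Finset.sum_le_sum fun k _ => by nlinarith [hw0 k, ht1 k j]
  rcases lt_or_ge (∑ k, w k) 1 with hlt | hge
  · left
    intro j hj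
    have h1 := hle j
    rw [hrow j hj] at h1
    have h2 : 1 - ∑ k, w k ≤ (1 - ∑ k, w k) * (∑ k, t k j - 1) / (n - 2) := by linarith
    rw [le_div_iff₀ hn2] at h2
    nlinarith
  · right
    have hω1 : ∑ k, w k = 1 := by linarith
    obtain ⟨k, -, hk⟩ : ∃ k ∈ (univ : Finset (Fin n)), (0 : ℝ) < w k := by
      by_contra hcon
      push Not at hcon
      have := Finset.sum_nonpos hcon
      linarith
    refine ⟨k, fun j hj => ?_⟩
    have h1 := hrow j hj
    rw [hω1] at h1
    have h2 : ∑ k, w k * (1 - t k j) = 0 := by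
      have : ∑ k, w k * (1 - t k j) = ∑ k, w k - ∑ k, w k * t k j := by
        rw [← Finset.sum_sub_distrib]
        exact Finset.sum_congr rfl fun k _ => by ring
      rw [this, h1, hω1]; ring
    have h3 := (Finset.sum_eq_zero_iff_of_nonneg
      (fun k _ => mul_nonneg (hw0 k) (sub_nonneg.2 (ht1 k j)))).1 h2 k (Finset.mem_univ k)
    rcases mul_eq_zero.1 h3 with h4 | h4 <;> linarith

/-- at most one column of `t` has sum less than one -/
theorem col_other (hn : 3 ≤ n) (hs1 : ∀ i j, s i j ≤ 1) (ht0 : ∀ i j, 0 ≤ t i j)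
    (ht1 : ∀ i j, t i j ≤ 1) (h : Prod1 s t) {l : Fin n} (hl : ∑ k, t k l - 1 < 0) (j : Fin n)
    (hj : j ≠ l) : 0 ≤ ∑ k, t k j - 1 := by
  have hn3 : (3 : ℝ) ≤ n := by exact_mod_cast hn
  rcases col_small hn hs1 ht0 ht1 h hl with h1 | ⟨k, hk⟩
  · linarith [h1 j hj]
  · have := Finset.single_le_sum (f := fun k => t k j) (fun k _ => ht0 k j) (Finset.mem_univ k)
    rw [hk j hj] at this
    linarith

/-- a sum with one term at least `c`, all terms at least `-1` and at most one negative term -/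
theorem sum_ge (a : Fin n → ℝ) (c : ℝ) (hc : 0 ≤ c) (k : Fin n) (hk : c ≤ a k)
    (h1 : ∀ i, -1 ≤ a i) (h2 : ∀ i, a i < 0 → ∀ j, j ≠ i → 0 ≤ a j) : c - 1 ≤ ∑ i, a i := by
  rw [← Finset.add_sum_erase univ a (Finset.mem_univ k)]
  by_cases hex : ∃ i, a i < 0
  · obtain ⟨i, hi⟩ := hex
    have hik : i ≠ k := by rintro rfl; linarith
    have hm : i ∈ univ.erase k := Finset.mem_erase.2 ⟨hik, Finset.mem_univ i⟩
    rw [← Finset.add_sum_erase _ a hm]
    have : 0 ≤ ∑ j ∈ (univ.erase k).erase i, a j :=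
      Finset.sum_nonneg fun j hj => h2 i hi j (Finset.mem_erase.1 hj).1
    linarith [h1 i]
  · push Not at hex
    have : 0 ≤ ∑ j ∈ univ.erase k, a j := Finset.sum_nonneg fun j _ => hex j
    linarith

/-- averaged separation: the total slack is at least `2 n - 3` unless all columns sum to one -/
theorem avg_sep (hn : 3 ≤ n) (hs0 : ∀ i j, 0 ≤ s i j) (hs1 : ∀ i j, s i j ≤ 1)
    (ht0 : ∀ i j, 0 ≤ t i j) (ht1 : ∀ i j, t i j ≤ 1) (hst : Prod1 s t) (hts : Prod1 t s) :
    (∀ j, ∑ k, s k j = 1) ∨ 2 * (n : ℝ) - 3 ≤ ∑ i, ∑ k, s i k := by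
  have hn3 : (3 : ℝ) ≤ n := by exact_mod_cast hn
  have hn2 : (0 : ℝ) < n - 2 := by linarith
  set σ := ∑ j, (∑ k, s k j - 1) with hσdef
  have hσ' : ∑ i, (∑ k, s i k - 1) = σ := by
    rw [hσdef, Finset.sum_sub_distrib, Finset.sum_sub_distrib, Finset.sum_comm]
  have hσ'' : ∑ i, ∑ k, s i k = σ + n := by
    rw [← hσ', Finset.sum_sub_distrib]; simp
  rw [hσ'']
  have hcol1 : ∀ j, -1 ≤ ∑ k, s k j - 1 := fun j => by
    linarith [Finset.sum_nonneg fun k (_ : k ∈ univ) => hs0 k j]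
  have hrow1 : ∀ i, -1 ≤ ∑ k, s i k - 1 := fun i => by
    linarith [Finset.sum_nonneg fun k (_ : k ∈ univ) => hs0 i k]
  have hcol2 : ∀ l, ∑ k, s k l - 1 < 0 → ∀ j, j ≠ l → 0 ≤ ∑ k, s k j - 1 :=
    fun l hl j hj => col_other hn ht1 hs0 hs1 hts hl j hj
  have hrow2 : ∀ l, ∑ k, s l k - 1 < 0 → ∀ j, j ≠ l → 0 ≤ ∑ k, s j k - 1 :=
    fun l hl j hj => col_other (s := fun i j => t j i) (t := fun i j => s j i) hn
      (fun i j => ht1 j i) (fun i j => hs0 j i) (fun i j => hs1 j i) hst.flip hl j hj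
  by_cases hb : ∃ l, ∑ k, s k l - 1 < 0
  · right
    obtain ⟨l, hl⟩ := hb
    rcases col_small hn ht1 hs0 hs1 hts hl with h1 | ⟨k, hk⟩
    · obtain ⟨j, hj⟩ : ∃ j : Fin n, j ≠ l := by
        have : Nontrivial (Fin n) := Fin.nontrivial_iff_two_le.2 (by omega)
        exact exists_ne l
      have := sum_ge (fun j => ∑ k, s k j - 1) (n - 2) hn2.le j (h1 j hj) hcol1 hcol2
      linarith
    · have h2 : (n : ℝ) - 2 ≤ ∑ j, s k j - 1 := by
        rw [← Finset.add_sum_erase univ (s k) (Finset.mem_univ l),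
          Finset.sum_congr rfl fun j hj => hk j (Finset.mem_erase.1 hj).1]
        simp only [Finset.sum_const, Finset.card_erase_of_mem (Finset.mem_univ l),
          Finset.card_univ, Fintype.card_fin, nsmul_eq_mul, mul_one]
        rw [Nat.cast_sub (by omega)]
        push_cast
        linarith [hs0 k l]
      have := sum_ge (fun i => ∑ k, s i k - 1) (n - 2) hn2.le k h2 hrow1 hrow2
      linarith
  push Not at hb
  by_cases ha : ∃ l, ∑ k, t l k - 1 < 0
  · right
    obtain ⟨l, hl⟩ := ha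
    have h1 := row_big (s := fun i j => s j i) (t := fun i j => t j i) hn
      (fun i j => hs1 j i) (fun i j => ht0 j i) hts.flip hl
    have := sum_ge (fun j => ∑ k, s k j - 1) (n - 2) hn2.le l h1 hcol1 hcol2
    linarith
  push Not at ha
  set τ := ∑ j, (∑ k, t k j - 1) with hτdef
  have hτ' : ∑ i, (∑ k, t i k - 1) = τ := by
    rw [hτdef, Finset.sum_sub_distrib, Finset.sum_sub_distrib, Finset.sum_comm]
  have hσ0 : 0 ≤ σ := Finset.sum_nonneg fun j _ => hb j
  have hτ0 : 0 ≤ τ := hτ' ▸ Finset.sum_nonneg fun j _ => ha j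
  have hL : ∑ i, ∑ j, ∑ k, s i k * t k j = ∑ k, (∑ i, s i k) * (∑ j, t k j) := by
    calc ∑ i, ∑ j, ∑ k, s i k * t k j = ∑ i, ∑ k, ∑ j, s i k * t k j :=
          Finset.sum_congr rfl fun i _ => Finset.sum_comm
      _ = ∑ k, ∑ i, ∑ j, s i k * t k j := Finset.sum_comm
      _ = _ := Finset.sum_congr rfl fun k _ => by rw [Finset.sum_mul_sum]
  have hR : ∑ i, ∑ j, ∑ k, s i k * t k j = n + σ * τ / (n - 2) := by
    have hst' := hst
    unfold Prod1 at hst'
    simp_rw [hst', Finset.sum_add_distrib]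
    have h1 : ∑ i : Fin n, ∑ j : Fin n, (if i = j then (1 : ℝ) else 0) = n := by simp
    have h2 : ∑ i, ∑ j, (∑ k, s i k - 1) * (∑ k, t k j - 1) / ((n : ℝ) - 2) = σ * τ / (n - 2) := by
      rw [← hσ', hτdef, Finset.sum_mul_sum, Finset.sum_div]
      exact Finset.sum_congr rfl fun i _ => by rw [Finset.sum_div]
    rw [h1, h2]
  have hlow : n + σ + τ ≤ ∑ k, (∑ i, s i k) * (∑ j, t k j) := by
    have h1 : (n : ℝ) + σ + τ = ∑ k, (1 + (∑ i, s i k - 1) + (∑ j, t k j - 1)) := by
      rw [Finset.sum_add_distrib, Finset.sum_add_distrib, hτ', ← hσdef]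
      simp
    rw [h1]
    exact Finset.sum_le_sum fun k _ => by nlinarith [hb k, ha k]
  have hkey : (σ + τ) * (n - 2) ≤ σ * τ := by
    rw [← le_div_iff₀ hn2]; linarith
  rcases hσ0.eq_or_lt with h0 | h0
  · left
    intro j
    have := (Finset.sum_eq_zero_iff_of_nonneg (fun j _ => hb j)).1 h0.symm j (Finset.mem_univ j)
    linarith
  · right
    by_contra hcon
    push Not at hcon
    nlinarith

end matrix

variable {X : Type*} [NormedAddCommGroup X] [NormedSpace ℝ X]

/-- the sum of the functionals of one configuration at the sum of the points of another one -/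
theorem cross_le [FiniteDimensional ℝ X] {n : ℕ} (hn : 3 ≤ n) (hX : finrank ℝ X = n)
    {y y' : Fin n → X} {h h' : Fin n → (X →L[ℝ] ℝ)} (H : IsConfig y h) (H' : IsConfig y' h')
    (hne : ∑ i, h i ≠ ∑ i, h' i) : (∑ i, h i) (∑ k, y' k) ≤ (n : ℝ) ^ 2 - 4 * n + 6 := by
  rcases avg_sep (s := fun i j => (1 - h i (y' j)) / 2) (t := fun i j => (1 - h' i (y j)) / 2) hn
    (fun i j => by linarith [(abs_le.1 (abs_apply_le_one (H.nh i) (H'.ny j))).2])
    (fun i j => by linarith [(abs_le.1 (abs_apply_le_one (H.nh i) (H'.ny j))).1])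
    (fun i j => by linarith [(abs_le.1 (abs_apply_le_one (H'.nh i) (H.ny j))).2])
    (fun i j => by linarith [(abs_le.1 (abs_apply_le_one (H'.nh i) (H.ny j))).1])
    (slack_identity hn hX H H') (slack_identity hn hX H' H) with key | key
  · exfalso
    apply hne
    have hy : ∀ j, (∑ i, h i) (y' j) = (∑ i, h' i) (y' j) := by
      intro j
      have h1 := key j
      rw [← Finset.sum_div, Finset.sum_sub_distrib] at h1
      simp only [Finset.sum_const, Finset.card_univ, Fintype.card_fin, nsmul_eq_mul,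
        mul_one] at h1
      rw [_root_.sum_apply, _root_.sum_apply, H'.sum_col]
      linarith
    ext x
    rw [H'.repr hn hX x, map_sum, map_sum]
    exact Finset.sum_congr rfl fun k _ => by rw [map_smul, map_smul, hy]
  · have h1 : ∑ i, ∑ k, (1 - h i (y' k)) / 2 = ((n : ℝ) ^ 2 - ∑ i, ∑ k, h i (y' k)) / 2 := by
      simp only [← Finset.sum_div, Finset.sum_sub_distrib, Finset.sum_const, Finset.card_univ,
        Fintype.card_fin, nsmul_eq_mul, mul_one]
      ring
    rw [h1] at key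
    rw [_root_.sum_apply]
    simp only [map_sum]
    linarith

theorem cross_self {n : ℕ} {y : Fin n → X} {h : Fin n → (X →L[ℝ] ℝ)} (H : IsConfig y h) :
    (∑ i, h i) (∑ k, y k) = (n : ℝ) ^ 2 - 2 * n := by
  rw [_root_.sum_apply]
  simp only [map_sum, H.sum_row, Finset.sum_const, Finset.card_univ, Fintype.card_fin,
    nsmul_eq_mul]
  ring

end Pool.Agent.MP_026d7f_an.H9

namespace Pool.Agent.MP_026d7f_an.H9

open Finset Module

/-- Chebyshev polynomials of the first kind as real functions -/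
def ch : ℕ → ℝ → ℝ
  | 0, _ => 1
  | 1, x => x
  | k + 2, x => 2 * x * ch (k + 1) x - ch k x

theorem ch_cos (θ : ℝ) : ∀ k : ℕ, ch k (Real.cos θ) = Real.cos (k * θ)
  | 0 => by simp [ch]
  | 1 => by simp [ch]
  | k + 2 => by
    rw [ch, ch_cos θ (k + 1), ch_cos θ k]
    have h1 : ((k + 2 : ℕ) : ℝ) * θ = ((k + 1 : ℕ) : ℝ) * θ + θ := by push_cast; ring
    have h2 : (k : ℝ) * θ = ((k + 1 : ℕ) : ℝ) * θ - θ := by push_cast; ring
    rw [h1, h2, Real.cos_add, Real.cos_sub]
    ring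

theorem ch_cosh (θ : ℝ) : ∀ k : ℕ, ch k (Real.cosh θ) = Real.cosh (k * θ)
  | 0 => by simp [ch]
  | 1 => by simp [ch]
  | k + 2 => by
    rw [ch, ch_cosh θ (k + 1), ch_cosh θ k]
    have h1 : ((k + 2 : ℕ) : ℝ) * θ = ((k + 1 : ℕ) : ℝ) * θ + θ := by push_cast; ring
    have h2 : (k : ℝ) * θ = ((k + 1 : ℕ) : ℝ) * θ - θ := by push_cast; ring
    rw [h1, h2, Real.cosh_add, Real.cosh_sub]
    ring

theorem abs_ch_le (k : ℕ) {x : ℝ} (hx : |x| ≤ 1) : |ch k x| ≤ 1 := by
  rw [← Real.cos_arccos (abs_le.1 hx).1 (abs_le.1 hx).2, ch_cos]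
  exact Real.abs_cos_le_one _

section poly

variable {n : ℕ}

/-- the constant function and the coordinates -/
def crd (o : Option (Fin n)) (x : Fin n → ℝ) : ℝ := o.elim 1 x

/-- products of `k` coordinates or constants -/
def mon {k : ℕ} (s : Sym (Option (Fin n)) k) (x : Fin n → ℝ) : ℝ :=
  (s.1.map fun o => crd o x).prod

/-- polynomial functions of degree at most `k` -/
def W (n k : ℕ) : Submodule ℝ ((Fin n → ℝ) → ℝ) :=
  Submodule.span ℝ (Set.range fun s : Sym (Option (Fin n)) k => mon s)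

theorem crd_mul_mem {k : ℕ} (o : Option (Fin n)) {f : (Fin n → ℝ) → ℝ} (hf : f ∈ W n k) :
    (fun x => crd o x * f x) ∈ W n (k + 1) := by
  induction hf using Submodule.span_induction with
  | mem f hf =>
    obtain ⟨s, rfl⟩ := hf
    refine Submodule.subset_span ⟨o ::ₛ s, ?_⟩
    funext x
    simp only [mon]
    rw [show (o ::ₛ s).1 = o ::ₘ s.1 from rfl, Multiset.map_cons, Multiset.prod_cons]
  | zero =>
    have : (fun x => crd o x * (0 : (Fin n → ℝ) → ℝ) x) = 0 := by funext x; simp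
    rw [this]; exact zero_mem _
  | add f g _ _ h1 h2 =>
    have : (fun x => crd o x * (f + g) x)
        = (fun x => crd o x * f x) + fun x => crd o x * g x := by
      funext x; simp [mul_add]
    rw [this]; exact add_mem h1 h2
  | smul c f _ h1 =>
    have : (fun x => crd o x * (c • f) x) = c • fun x => crd o x * f x := by
      funext x; simp; ring
    rw [this]; exact Submodule.smul_mem _ c h1

theorem W_mono {k : ℕ} {f : (Fin n → ℝ) → ℝ} (hf : f ∈ W n k) : f ∈ W n (k + 1) := by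
  have := crd_mul_mem none hf
  simpa [crd] using this

theorem lin_mul_mem {k : ℕ} (c : Fin n → ℝ) {f : (Fin n → ℝ) → ℝ} (hf : f ∈ W n k) :
    (fun x => (∑ i, c i * x i) * f x) ∈ W n (k + 1) := by
  have : (fun x => (∑ i, c i * x i) * f x) = ∑ i, c i • fun x => crd (some i) x * f x := by
    funext x
    simp [crd, Finset.sum_mul, mul_assoc]
  rw [this]
  exact Submodule.sum_mem _ fun i _ => Submodule.smul_mem _ _ (crd_mul_mem _ hf)

theorem one_mem_W : (fun _ => (1 : ℝ)) ∈ W n 0 :=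
  Submodule.subset_span ⟨Sym.nil, by funext x; simp [mon]⟩

theorem ch_mem (c : Fin n → ℝ) : ∀ k : ℕ, (fun x => ch k (∑ i, c i * x i)) ∈ W n k
  | 0 => by simpa [ch] using one_mem_W
  | 1 => by simpa [ch] using lin_mul_mem c one_mem_W
  | k + 2 => by
    have h1 := Submodule.smul_mem _ (2 : ℝ) (lin_mul_mem c (ch_mem c (k + 1)))
    have h2 := W_mono (W_mono (ch_mem c k))
    convert sub_mem h1 h2 using 1
    funext x
    simp [ch, mul_assoc]

/-- a family of polynomial functions with a dominant diagonal is at most as large as the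
dimension of the space of polynomials -/
theorem card_le_choose {ι : Type*} [Fintype ι] {k : ℕ} (f : ι → (Fin n → ℝ) → ℝ)
    (p : ι → Fin n → ℝ) (hf : ∀ a, f a ∈ W n k) (hd : ∀ a, (Fintype.card ι : ℝ) ≤ f a (p a))
    (ho : ∀ a b, a ≠ b → |f a (p b)| ≤ 1) : Fintype.card ι ≤ (n + k).choose k := by
  classical
  have hli : LinearIndependent ℝ f := by
    rw [Fintype.linearIndependent_iff]
    intro c hc
    by_contra hcon
    push Not at hcon
    obtain ⟨a₀, ha₀⟩ := hcon
    obtain ⟨b, -, hb⟩ := Finset.exists_max_image univ (fun a => |c a|) ⟨a₀, Finset.mem_univ _⟩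
    have hpos : 0 < |c b| := (abs_pos.2 ha₀).trans_le (hb a₀ (Finset.mem_univ _))
    have h1 := congrFun hc (p b)
    simp only [Finset.sum_apply, Pi.smul_apply, smul_eq_mul, Pi.zero_apply] at h1
    rw [← Finset.add_sum_erase univ _ (Finset.mem_univ b)] at h1
    have h2 : |∑ a ∈ univ.erase b, c a * f a (p b)| ≤ ∑ _a ∈ univ.erase b, |c b| := by
      refine (Finset.abs_sum_le_sum_abs _ _).trans (Finset.sum_le_sum fun a ha => ?_)
      rw [abs_mul]
      have := ho a b (Finset.mem_erase.1 ha).1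
      nlinarith [hb a (Finset.mem_univ _), abs_nonneg (c a), abs_nonneg (f a (p b))]
    have hc1 : 1 ≤ Fintype.card ι := Fintype.card_pos_iff.2 ⟨b⟩
    rw [Finset.sum_const, Finset.card_erase_of_mem (Finset.mem_univ b), Finset.card_univ,
      nsmul_eq_mul, Nat.cast_sub hc1, show ∑ a ∈ univ.erase b, c a * f a (p b)
        = -(c b * f b (p b)) by linarith, abs_neg, abs_mul] at h2
    have h3 := (hd b).trans (le_abs_self _)
    push_cast at h2
    nlinarith
  have : Module.Finite ℝ (W n k) := Module.Finite.span_of_finite ℝ (Set.finite_range _)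
  have hli' : LinearIndependent ℝ fun a => (⟨f a, hf a⟩ : W n k) :=
    LinearIndependent.of_comp (W n k).subtype hli
  refine hli'.fintype_card_le_finrank.trans ((finrank_range_le_card _).trans ?_)
  rw [Sym.card_sym_eq_choose]
  simp only [Fintype.card_option, Fintype.card_fin]
  rw [show n + 1 + k - 1 = n + k by omega]

end poly

/-- pairs of functionals and points which are separated by a relative margin `1 / n` -/
theorem card_le_of_margin {X : Type*} [AddCommGroup X] [Module ℝ X] [FiniteDimensional ℝ X]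
    {n : ℕ} (hX : finrank ℝ X = n) {ι : Type*} [Fintype ι] (F : ι → X →ₗ[ℝ] ℝ) (c : ι → X)
    {u : ℝ} (hd : ∀ a, F a (c a) = Real.cosh u) (ho : ∀ a b, a ≠ b → |F a (c b)| ≤ 1) {k : ℕ}
    (hk : (Fintype.card ι : ℝ) ≤ Real.cosh (k * u)) : Fintype.card ι ≤ (n + k).choose k := by
  let b := Module.finBasisOfFinrankEq ℝ X hX
  have key : ∀ a x, ∑ i, F a (b i) * b.repr x i = F a x := by
    intro a x
    conv_rhs => rw [← b.sum_repr x]
    rw [map_sum]
    exact Finset.sum_congr rfl fun i _ => by rw [map_smul, smul_eq_mul, mul_comm]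
  refine card_le_choose (fun a x => ch k (∑ i, F a (b i) * x i)) (fun a i => b.repr (c a) i)
    (fun a => ch_mem _ k) (fun a => ?_) (fun a a' h => ?_)
  · simp only [key, hd, ch_cosh]
    exact hk
  · simp only [key]
    exact abs_ch_le k (ho a a' h)

end Pool.Agent.MP_026d7f_an.H9

namespace Pool.Agent.MP_026d7f_an.H9

open Finset Module

variable {X : Type*} [NormedAddCommGroup X] [NormedSpace ℝ X]

theorem card_le_choose_of_cosh [FiniteDimensional ℝ X] {n : ℕ} (hn : 4 ≤ n) (hX : finrank ℝ X = n)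
    (T : Finset (Submodule ℝ X))
    (hT : ∀ Y ∈ T, finrank ℝ Y = n - 1 ∧ projConst Y = 2 - 2 / n) {k : ℕ}
    (hk : (T.card : ℝ) ≤ Real.cosh (k * √(2 / n))) : T.card ≤ (n + k).choose k := by
  classical
  have hn3 : 3 ≤ n := by omega
  have hn4 : (4 : ℝ) ≤ n := by exact_mod_cast hn
  have hn0 : (0 : ℝ) < n := by linarith
  choose y h H hY using fun Y : T => exists_config hn3 hX Y.1 (hT Y.1 Y.2).1 (hT Y.1 Y.2).2
  have hd : (0 : ℝ) < (n : ℝ) ^ 2 - 2 * n := by nlinarith
  set u : ℝ := √(2 / n) with hu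
  have hc0 : 0 < Real.cosh u := Real.cosh_pos u
  have hc : Real.cosh u * ((n : ℝ) ^ 2 - 4 * n + 6) ≤ (n : ℝ) ^ 2 - 2 * n := by
    have h1 : Real.cosh u ≤ Real.exp (1 / n) := by
      have := Real.cosh_le_exp_half_sq u
      rwa [hu, Real.sq_sqrt (by positivity), show 2 / (n : ℝ) / 2 = 1 / n by ring] at this
    have h2 : 1 - 1 / (n : ℝ) ≤ Real.exp (-(1 / n)) := by
      linarith [Real.add_one_le_exp (-(1 / (n : ℝ)))]
    have h3 : (n : ℝ) ^ 2 - 4 * n + 6 ≤ (1 - 1 / n) * ((n : ℝ) ^ 2 - 2 * n) := by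
      have : (1 - 1 / (n : ℝ)) * ((n : ℝ) ^ 2 - 2 * n) = (n : ℝ) ^ 2 - 3 * n + 2 := by
        field_simp; ring
      linarith
    have h4 : Real.exp (1 / (n : ℝ)) * Real.exp (-(1 / n)) = 1 := by
      rw [← Real.exp_add]; simp
    have h5 : (n : ℝ) ^ 2 - 4 * n + 6 ≤ Real.exp (-(1 / n)) * ((n : ℝ) ^ 2 - 2 * n) :=
      h3.trans (mul_le_mul_of_nonneg_right h2 hd.le)
    calc Real.cosh u * ((n : ℝ) ^ 2 - 4 * n + 6)
        ≤ Real.exp (1 / n) * (Real.exp (-(1 / n)) * ((n : ℝ) ^ 2 - 2 * n)) :=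
          mul_le_mul h1 h5 (by nlinarith) (Real.exp_pos _).le
      _ = _ := by rw [← mul_assoc, h4, one_mul]
  have key := card_le_of_margin hX
    (fun a : T => (Real.cosh u / ((n : ℝ) ^ 2 - 2 * n)) • ((∑ i, h a i : X →L[ℝ] ℝ) : X →ₗ[ℝ] ℝ))
    (fun a => ∑ j, y a j) (u := u) (k := k) (fun a => by
      rw [LinearMap.smul_apply, ContinuousLinearMap.coe_coe, cross_self (H a), smul_eq_mul,
        div_mul_cancel₀ _ hd.ne'])
    (fun a b hab => by
      have h1 := cross_le hn3 hX (H a) (H b) fun e => hab (Subtype.ext (by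
        ext x; rw [hY, hY, e]))
      have h2 := cross_le hn3 hX (H a) (H b).neg fun e => hab (Subtype.ext (by
        ext x; rw [hY, hY, e]; simp))
      rw [Finset.sum_neg_distrib, map_neg] at h2
      rw [LinearMap.smul_apply, ContinuousLinearMap.coe_coe, smul_eq_mul, abs_mul,
        abs_of_pos (div_pos hc0 hd), div_mul_eq_mul_div, div_le_one hd]
      exact (mul_le_mul_of_nonneg_left (abs_le.2 ⟨by linarith, h1⟩) hc0.le).trans hc)
    (by simpa using hk)
  simpa using key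

theorem choose_le_exp (n k : ℕ) (hn : 0 < n) :
    (((n + k).choose k : ℕ) : ℝ) ≤ (Real.exp 1 * ((n + k) / n)) ^ n := by
  have hn0 : (0 : ℝ) < n := by exact_mod_cast hn
  have h1 : (((n + k).choose n : ℕ) : ℝ) ≤ ((n + k : ℕ) : ℝ) ^ n / (n.factorial : ℝ) :=
    Nat.choose_le_pow_div n (n + k)
  have h2 := Real.pow_div_factorial_le_exp (n : ℝ) hn0.le n
  have h3 : ((n + k : ℕ) : ℝ) ^ n / (n.factorial : ℝ)
      = (n : ℝ) ^ n / (n.factorial : ℝ) * ((n + k) / n) ^ n := by
    rw [div_pow]; push_cast; field_simp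
  rw [← Nat.choose_symm_add, mul_pow, ← Real.exp_nat_mul, mul_one]
  rw [h3] at h1
  exact h1.trans (mul_le_mul_of_nonneg_right h2 (by positivity))

theorem finset_bound_half [FiniteDimensional ℝ X] {n : ℕ} (hn : 3 ≤ n) (hX : finrank ℝ X = n)
    (T : Finset (Submodule ℝ X))
    (hT : ∀ Y ∈ T, finrank ℝ Y = n - 1 ∧ projConst Y = 2 - 2 / n) :
    (T.card : ℝ) ≤ (5 * √(n : ℝ) * Real.log n) ^ n := by
  have h0 := finset_bound hn hX T hT
  have hl3 : Real.log 3 ≤ 1.1 := by
    rw [Real.log_le_iff_le_exp (by norm_num)]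
    have h1 := Real.exp_one_gt_d9
    have h2 := Real.add_one_le_exp (0.1 : ℝ)
    have h3 : Real.exp 1.1 = Real.exp 1 * Real.exp 0.1 := by rw [← Real.exp_add]; norm_num
    have h4 := Real.quadratic_le_exp_of_nonneg (x := 0.1) (by norm_num)
    nlinarith
  have hl3' : 1 ≤ Real.log 3 := by
    rw [Real.le_log_iff_exp_le (by norm_num)]
    linarith [Real.exp_one_lt_d9]
  rcases hn.eq_or_lt with h3 | hn4
  · subst h3
    have h1 : (1.7 : ℝ) ≤ √3 := Real.le_sqrt_of_sq_le (by norm_num)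
    have h2 : (8.5 : ℝ) ≤ 5 * √3 * Real.log 3 := by nlinarith
    have h4 := pow_le_pow_left₀ (by norm_num) h2 3
    norm_num at h0 h4 ⊢
    have h5 : (T.card : ℝ) ≤ 500 := by exact_mod_cast h0
    linarith
  have hn4' : (4 : ℝ) ≤ n := by exact_mod_cast hn4
  have hn0 : (0 : ℝ) < n := by linarith
  have h1 : (T.card : ℝ) ≤ (1 / 2) * (3 * n) ^ n := by
    refine h0.trans (mul_le_mul_of_nonneg_left (pow_le_pow_left₀ ?_ ?_ n) (by norm_num))
    · exact div_nonneg (mul_nonneg (by linarith) (by linarith)) (by linarith)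
    · rw [div_le_iff₀ (by linarith)]; nlinarith
  set L := Real.log (3 * n) with hL
  have hLeq : L = Real.log 3 + Real.log n := Real.log_mul (by norm_num) hn0.ne'
  have hln : 1.38 ≤ Real.log n := by
    have h2 : Real.log 4 ≤ Real.log n := Real.log_le_log (by norm_num) hn4'
    have h3 : Real.log 4 = 2 * Real.log 2 := by
      rw [show (4 : ℝ) = 2 ^ 2 by norm_num, Real.log_pow]; norm_num
    linarith [Real.log_two_gt_d9]
  set r : ℝ := √(n / 2) with hr
  have hr0 : 0 < r := Real.sqrt_pos.2 (by positivity)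
  have hru : r * √(2 / n) = 1 := by
    rw [hr, ← Real.sqrt_mul (by positivity)]
    rw [show (n : ℝ) / 2 * (2 / n) = 1 by field_simp, Real.sqrt_one]
  have hx0 : 0 ≤ r * (n * L) := by
    have : 0 ≤ L := by linarith
    positivity
  set k := ⌈r * (n * L)⌉₊ with hk
  have hk1 : r * (n * L) ≤ k := Nat.le_ceil _
  have hk2 : (k : ℝ) < r * (n * L) + 1 := Nat.ceil_lt_add_one hx0
  have h2 : (T.card : ℝ) ≤ Real.cosh (k * √(2 / n)) := by
    have h3 : n * L ≤ k * √(2 / n) := by
      calc n * L = r * (n * L) * √(2 / n) := by rw [mul_right_comm, hru, one_mul]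
        _ ≤ _ := mul_le_mul_of_nonneg_right hk1 (Real.sqrt_nonneg _)
    have h4 : (3 * (n : ℝ)) ^ n = Real.exp (n * L) := by
      rw [Real.exp_nat_mul, hL, Real.exp_log (by positivity)]
    have h5 := Real.exp_le_exp.2 h3
    rw [Real.cosh_eq]
    linarith [Real.exp_pos (-(k * √(2 / n)))]
  have h3 := card_le_choose_of_cosh hn4 hX T hT h2
  have h4 : (T.card : ℝ) ≤ (((n + k).choose k : ℕ) : ℝ) := by exact_mod_cast h3
  refine h4.trans ((choose_le_exp n k (by omega)).trans (pow_le_pow_left₀ (by positivity) ?_ n))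
  have h5 : ((n : ℝ) + k) / n ≤ 1.25 + r * L := by
    rw [div_le_iff₀ hn0]; nlinarith
  have hs2 : (2 : ℝ) ≤ √(n : ℝ) := Real.le_sqrt_of_sq_le (by linarith)
  have h6 : r ≤ 0.71 * √(n : ℝ) := by
    rw [hr]
    refine Real.sqrt_le_iff.2 ⟨by positivity, ?_⟩
    rw [mul_pow, Real.sq_sqrt hn0.le]
    linarith
  have h7 : r * L ≤ 0.71 * √(n : ℝ) * (1.1 + Real.log n) :=
    mul_le_mul h6 (by linarith) (by linarith) (by positivity)
  have h8 : Real.exp 1 ≤ 2.72 := by linarith [Real.exp_one_lt_d9]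
  have h9 : 1.38 * √(n : ℝ) ≤ √(n : ℝ) * Real.log n := by nlinarith
  calc Real.exp 1 * (((n : ℝ) + k) / n)
      ≤ 2.72 * (1.25 + 0.71 * √(n : ℝ) * (1.1 + Real.log n)) :=
        mul_le_mul h8 (by linarith) (by positivity) (by norm_num)
    _ ≤ 5 * √(n : ℝ) * Real.log n := by nlinarith

end Pool.Agent.MP_026d7f_an.H9
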